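import Pool.Agent.TH662.PM.Seq

set_option autoImplicit false

/-! PM: the gaps between the positions. -/

open Finset

namespace Pool.Agent.TH662.PM

/-- the scales of the positions -/
noncomputable def SS (B : ℝ) (L : ℕ) (H : ℕ → ℝ) (j : ℕ) : ℝ := H (min j (L - 1)) * B ^ j / B ^ L

theorem SS_prop {A L : ℕ} {B : ℝ} (hL : 1 ≤ L) (hA : 0 < A) (hB : 2 * A ≤ B) {H : ℕ → ℝ} (hH0 : ∀ j < L, 0 < H j)
    (hH : ∀ j, j + 1 < L → H j ≤ H (j + 1)) (l : ℕ) : 0 < SS B L H l ∧ 2 * A * SS B L H l ≤ SS B L H (l + 1) := by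
  have hAr : (1 : ℝ) ≤ A := by exact_mod_cast hA
  have hB0 : 0 < B := by linarith
  have h1 : 0 < H (min l (L - 1)) := hH0 _ (by omega)
  have h2 : H (min l (L - 1)) ≤ H (min (l + 1) (L - 1)) := by
    by_cases h : l + 1 < L
    · have e1 : min l (L - 1) = l := by omega
      have e2 : min (l + 1) (L - 1) = l + 1 := by omega
      rw [e1, e2]; exact hH l h
    · have e1 : min l (L - 1) = L - 1 := by omega
      have e2 : min (l + 1) (L - 1) = L - 1 := by omega
      rw [e1, e2]
  unfold SS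
  refine ⟨by positivity, ?_⟩
  have e3 : 2 * A * (H (min l (L - 1)) * B ^ l / B ^ L) = (2 * A) * H (min l (L - 1)) * (B ^ l / B ^ L) := by ring
  have e4 : H (min (l + 1) (L - 1)) * B ^ (l + 1) / B ^ L = B * H (min (l + 1) (L - 1)) * (B ^ l / B ^ L) := by
    rw [pow_succ]; ring
  rw [e3, e4]
  apply mul_le_mul_of_nonneg_right _ (by positivity)
  exact mul_le_mul hB h2 h1.le hB0.le

/-- the combinatorial properties of the positions -/
theorem gaps_of {A L K : ℕ} {B c U : ℝ} (hL : 1 ≤ L) (hA : 0 < A) (hBA : 4 * (A : ℝ) ≤ B) (hBK : 4 * (K : ℝ) ≤ B)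
    (hB4 : 4 ≤ B) (hc : c = 1 / (4 * B ^ (L + 1))) {H : ℕ → ℝ}
    (hH0 : ∀ j < L, 0 < H j) (hH : ∀ j, j + 1 < L → H j ≤ H (j + 1)) (hU : U = H 0 / B ^ (L + 1))
    (t : Fin K → ℕ) (y0 : ℝ)
    (ht1 : ∀ i : Fin K, y0 + bj A L (SS B L H) U L (i : ℕ) ≤ t i)
    (ht2 : ∀ i : Fin K, (t i : ℝ) ≤ y0 + bj A L (SS B L H) U L (i : ℕ) + U / 4) (u v : Fin K) (huv : t u < t v) :
    (∀ j, cj A L j u ≤ cj A L j v) ∧
    (∃ j < L, c * H j ≤ (t v : ℝ) - t u ∧ (t v : ℝ) - t u ≤ H j) ∧
    ∀ j < L, cj A L (j + 1) u = cj A L (j + 1) v → cj A L j u < cj A L j v →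
      c * H j ≤ (t v : ℝ) - t u ∧ (t v : ℝ) - t u ≤ H j := by
  have hAr : (1 : ℝ) ≤ A := by exact_mod_cast hA
  have hB0 : 0 < B := by linarith
  have hB1 : 1 ≤ B := by linarith
  have hH00 : 0 < H 0 := hH0 0 (by omega)
  have hU0 : 0 < U := by rw [hU]; positivity
  have hUB : U * B ^ (L + 1) = H 0 := by rw [hU]; field_simp
  have hS := SS_prop (A := A) (B := B) hL hA (by linarith) hH0 hH
  set S := SS B L H with hSdef
  have hS0 : S 0 = B * U := by
    rw [hSdef]; unfold SS
    rw [hU, pow_succ]; simp only [Nat.zero_min, pow_zero, mul_one]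
    field_simp
  have hS0K : 2 * K * U ≤ S 0 := by
    rw [hS0]; exact mul_le_mul_of_nonneg_right (by linarith) hU0.le
  have hSinc : ∀ l, S 0 ≤ S l := by
    intro l
    induction l with
    | zero => exact le_rfl
    | succ l ih =>
      have h1 := hS l
      have h2 : 1 * S l ≤ 2 * A * S l := mul_le_mul_of_nonneg_right (by linarith) h1.1.le
      linarith [h1.2]
  have hUS : ∀ l, U ≤ S l / 4 := by
    intro l
    have h1 := hSinc l
    rw [hS0] at h1
    have h2 : 4 * U ≤ B * U := mul_le_mul_of_nonneg_right hB4 hU0.le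
    linarith
  have hu : ((u : ℕ)) ≤ K := u.2.le
  have hv : ((v : ℕ)) ≤ K := v.2.le
  have htuv : (t u : ℝ) < t v := by exact_mod_cast huv
  -- orders
  have hord : ∀ j, ¬ cj A L j v < cj A L j u := by
    intro j hlt
    obtain ⟨l, hl, -, -, -, h5⟩ := bj_mono (K := K) hA hU0 hS0K hS hv hu hlt
    have h6 := hUS l
    have h7 := ht1 u
    have h8 := ht2 v
    linarith
  have hord' : ∀ j, cj A L j u ≤ cj A L j v := fun j => not_lt.1 (hord j)
  have hSle : ∀ j < L, S j ≤ H j / B := by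
    intro j hj
    rw [hSdef]; unfold SS
    have e1 : min j (L - 1) = j := by omega
    rw [e1, div_le_div_iff₀ (by positivity) hB0]
    have h1 : B ^ j * B ≤ B ^ L := by
      rw [← pow_succ]; exact pow_le_pow_right₀ hB1 (by omega)
    calc H j * B ^ j * B = H j * (B ^ j * B) := by ring
      _ ≤ H j * B ^ L := mul_le_mul_of_nonneg_left h1 (hH0 j hj).le
  have hSge : ∀ j < L, H j / B ^ (L + 1) ≤ S j := by
    intro j hj
    rw [hSdef]; unfold SS
    have e1 : min j (L - 1) = j := by omega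
    rw [e1, div_le_div_iff₀ (by positivity) (by positivity)]
    have h1 : B ^ L ≤ B ^ j * B ^ (L + 1) := by
      rw [← pow_add]; exact pow_le_pow_right₀ hB1 (by omega)
    calc H j * B ^ L ≤ H j * (B ^ j * B ^ (L + 1)) := mul_le_mul_of_nonneg_left h1 (hH0 j hj).le
      _ = _ := by ring
  have hlev : ∀ j < L, cj A L (j + 1) u = cj A L (j + 1) v → cj A L j u < cj A L j v →
      c * H j ≤ (t v : ℝ) - t u ∧ (t v : ℝ) - t u ≤ H j := by
    intro j hj h1 h2
    obtain ⟨d1, d2⟩ := bj_diff (K := K) hA hU0 hS0K hS hu hv hj h1 h2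
    have g1 := ht1 u
    have g2 := ht2 u
    have g3 := ht1 v
    have g4 := ht2 v
    have g5 := hUS j
    have g6 := hSle j hj
    have g7 := hSge j hj
    have hHj := hH0 j hj
    constructor
    · have e1 : c * H j = (H j / B ^ (L + 1)) / 4 := by rw [hc]; field_simp
      rw [e1]
      linarith
    · have e2 : A * S j ≤ H j / 4 := by
        have h3 : (A : ℝ) * S j ≤ A * (H j / B) := mul_le_mul_of_nonneg_left g6 (by positivity)
        have h4 : (A : ℝ) * (H j / B) ≤ H j / 4 := by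
          rw [mul_div_assoc', div_le_div_iff₀ hB0 (by norm_num)]
          have : H j * (4 * A) ≤ H j * B := mul_le_mul_of_nonneg_left hBA hHj.le
          linarith
        linarith
      have e3 : U / 4 ≤ H j / 4 := by
        have h3 : S j ≤ H j := by
          refine g6.trans ?_
          exact div_le_self hHj.le hB1
        linarith
      linarith
  refine ⟨hord', ?_, hlev⟩
  rcases level (L := L) hA (u : ℕ) (v : ℕ) with h0 | ⟨j, hj, h1, h2⟩
  · -- same colour
    have hd := bj_same (S := S) (U := U) h0 (Nat.zero_le L)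
    rw [bj_zero, bj_zero] at hd
    have g1 := ht1 u
    have g2 := ht2 u
    have g3 := ht1 v
    have g4 := ht2 v
    have hlt : (u : ℕ) < (v : ℕ) := by
      by_contra hcon
      push Not at hcon
      rcases hcon.lt_or_eq with h5 | h5
      · have h6 : ((v : ℕ) : ℝ) + 1 ≤ ((u : ℕ) : ℝ) := by exact_mod_cast h5
        have h7 := mul_le_mul_of_nonneg_right h6 hU0.le
        linarith
      · have : u = v := Fin.ext h5.symm
        rw [this] at huv; omega
    have h6 : ((u : ℕ) : ℝ) + 1 ≤ ((v : ℕ) : ℝ) := by exact_mod_cast hlt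
    have h7 := mul_le_mul_of_nonneg_right h6 hU0.le
    have h8 : ((v : ℕ) : ℝ) ≤ K := by exact_mod_cast hv
    have h9 := mul_le_mul_of_nonneg_right h8 hU0.le
    have h10 : (0 : ℝ) ≤ ((u : ℕ) : ℝ) * U := by positivity
    refine ⟨0, by omega, ?_, ?_⟩
    · have e1 : c * H 0 = U / 4 := by rw [hc, ← hUB]; field_simp
      rw [e1]; linarith
    · have h11 : K * U ≤ H 0 / 4 := by
        rw [← hUB]
        have h12 : 4 * (K : ℝ) ≤ B ^ (L + 1) := by
          refine hBK.trans ?_
          calc B = B ^ 1 := (pow_one _).symm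
            _ ≤ B ^ (L + 1) := pow_le_pow_right₀ hB1 (by omega)
        have := mul_le_mul_of_nonneg_left h12 hU0.le
        linarith
      have h13 : U ≤ H 0 / 4 := by
        rw [← hUB]
        have h12 : 4 ≤ B ^ (L + 1) := by
          refine hB4.trans ?_
          calc B = B ^ 1 := (pow_one _).symm
            _ ≤ B ^ (L + 1) := pow_le_pow_right₀ hB1 (by omega)
        have := mul_le_mul_of_nonneg_left h12 hU0.le
        linarith
      linarith
  · exact ⟨j, hj, hlev j hj h1 (lt_of_le_of_ne (hord' j) h2)⟩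

end Pool.Agent.TH662.PM
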