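import Pool.Agent.W126.Place3

set_option autoImplicit false

/-! PM: blocks of primes whose gaps have exactly the prescribed orders of magnitude. -/

open Finset Filter Topology

namespace Pool.Agent.TH662.PM

open Pool.Agent.H362R2.RQ
open Pool.Agent.H256R2.SC (ff)
open Pool.Agent.H312R2.RG.C3 (ff_tendsto ff_lower)

/-- growth facts -/
theorem ev_grow (c0 C : ℝ) (hc0 : 0 < c0) (hC : 0 < C) : ∀ᶠ X : ℝ in atTop,
    1 ≤ Real.log X ∧ ∀ y : ℝ, c0 * ff X ≤ y → y ≤ 2 * (c0 * ff X) → y / (Real.log y) ^ 3 ≤ Real.log X / C := by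
  have hllt : Tendsto (fun X : ℝ => Real.log (Real.log X)) atTop atTop :=
    Real.tendsto_log_atTop.comp Real.tendsto_log_atTop
  filter_upwards [ff_lower, Pool.Agent.W126.Place3.ff_le, hllt.eventually_ge_atTop (1 / c0),
    hllt.eventually_ge_atTop (2 * c0 * C), hllt.eventually_ge_atTop 1,
    Real.tendsto_log_atTop.eventually_ge_atTop 1] with X h1 h2 h3 h4 h5 h6
  refine ⟨h6, ?_⟩
  intro y hy1 hy2
  set l := Real.log X with hl
  set ll := Real.log l with hll
  have hl0 : 0 < l := by linarith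
  have hll0 : 0 < ll := by linarith
  have h7 : l ≤ c0 * ff X := by
    rw [div_le_iff₀ hc0] at h3
    calc l = l * 1 := (mul_one _).symm
      _ ≤ l * (ll * c0) := mul_le_mul_of_nonneg_left h3 hl0.le
      _ = c0 * (l * ll) := by ring
      _ ≤ c0 * ff X := mul_le_mul_of_nonneg_left h1 hc0.le
  have h8 : ll ≤ Real.log y := Real.log_le_log hl0 (h7.trans hy1)
  have h9 : ll ^ 3 ≤ Real.log y ^ 3 := pow_le_pow_left₀ hll0.le h8 3
  rw [div_le_div_iff₀ (pow_pos (hll0.trans_le h8) 3) hC]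
  have h10 : y ≤ 2 * c0 * (l * ll ^ 2) := by
    have := mul_le_mul_of_nonneg_left h2 (show 0 ≤ 2 * c0 by positivity)
    linarith
  calc y * C ≤ 2 * c0 * (l * ll ^ 2) * C := mul_le_mul_of_nonneg_right h10 hC.le
    _ = l * ll ^ 2 * (2 * c0 * C) := by ring
    _ ≤ l * ll ^ 2 * ll := mul_le_mul_of_nonneg_left h4 (by positivity)
    _ = l * ll ^ 3 := by ring
    _ ≤ l * Real.log y ^ 3 := mul_le_mul_of_nonneg_left h9 hl0.le

end Pool.Agent.TH662.PM
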