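import Pool.Agent.TH662.PM.Window
import Pool.Agent.TH662.PM.Gaps
import Pool.Agent.TH662.PM.Grow
import Pool.Agent.H362R2.RQ.Fin

set_option autoImplicit false

/-! PM: blocks of primes whose gaps have exactly the prescribed orders of magnitude. -/

open Finset Filter Topology

namespace Pool.Agent.TH662.PM

open Pool.Agent.H362R2.RQ
open Pool.Agent.H256R2.SC (ff)
open Pool.Agent.H312R2.RG.C3 (ff_tendsto ff_lower ff_upper ff_small ff_slow count_next)

theorem main_of (h : StRQ) (L m : ℕ) (hL : 1 ≤ L) : ∃ K : ℕ, ∃ c : ℝ, 0 < c ∧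
    ∀ q a : ℕ, Squarefree q → a.Coprime q → ∃ X0 : ℝ, ∀ X : ℝ, X0 ≤ X →
    ∀ H : ℕ → ℝ, (∀ j < L, Real.log X ≤ H j ∧ H j ≤ c * ff X) → (∀ j, j + 1 < L → H j ≤ H (j + 1)) →
    ∃ J : Finset ℕ, c * X ^ (9 / 10 : ℝ) ≤ J.card ∧ ∀ i ∈ J, 1 ≤ i ∧ X < Nat.nth Nat.Prime i ∧ ∃ r ≤ K,
      (Nat.nth Nat.Prime (i + r) : ℝ) ≤ 4 * X ∧ (∀ s ≤ r, Nat.nth Nat.Prime (i + s) ≡ a [MOD q]) ∧
      c * ff X ≤ (Nat.nth Nat.Prime i : ℝ) - Nat.nth Nat.Prime (i - 1) ∧
      c * ff X ≤ (Nat.nth Nat.Prime (i + r + 1) : ℝ) - Nat.nth Nat.Prime (i + r) ∧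
      (∀ s < r, ∃ j < L, c * H j ≤ (Nat.nth Nat.Prime (i + s + 1) : ℝ) - Nat.nth Nat.Prime (i + s) ∧
        (Nat.nth Nat.Prime (i + s + 1) : ℝ) - Nat.nth Nat.Prime (i + s) ≤ H j) ∧
      ∀ j < L, m ≤ Set.ncard {s : ℕ | s < r ∧
        c * H j ≤ (Nat.nth Nat.Prime (i + s + 1) : ℝ) - Nat.nth Nat.Prime (i + s) ∧
        (Nat.nth Nat.Prime (i + s + 1) : ℝ) - Nat.nth Nat.Prime (i + s) ≤ H j} := by
  classical
  obtain ⟨η, hη, hwin⟩ := window h
  obtain ⟨A, hA, hA2⟩ : ∃ A : ℕ, 0 < A ∧ (m : ℝ) + 1 ≤ η * A := by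
    obtain ⟨A0, hA0⟩ := exists_nat_ge (((m : ℝ) + 1) / η)
    refine ⟨A0 + 1, by omega, ?_⟩
    rw [div_le_iff₀ hη] at hA0
    push_cast
    nlinarith
  have hM : 0 < A ^ L := pow_pos hA L
  obtain ⟨K, hMK, c0, hc0, hmain⟩ := hwin (A ^ L) hM
  have hK0 : 0 < K := by omega
  have hKr : (0 : ℝ) < K := by exact_mod_cast hK0
  have hAr : (1 : ℝ) ≤ A := by exact_mod_cast hA
  obtain ⟨B, hB⟩ : ∃ B : ℝ, B = 4 * A + 4 * K + 4 := ⟨_, rfl⟩
  have hBA : 4 * (A : ℝ) ≤ B := by rw [hB]; linarith
  have hBK : 4 * (K : ℝ) ≤ B := by rw [hB]; linarith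
  have hB4 : 4 ≤ B := by rw [hB]; linarith
  have hB0 : 0 < B := by linarith
  have hB1 : 1 ≤ B := by linarith
  obtain ⟨c1, hc1⟩ : ∃ c1 : ℝ, c1 = 1 / (4 * B ^ (L + 1)) := ⟨_, rfl⟩
  have hc1pos : 0 < c1 := by rw [hc1]; positivity
  obtain ⟨c, hc⟩ : ∃ c : ℝ, c = min (min c1 c0) (1 / K) := ⟨_, rfl⟩
  have hcpos : 0 < c := by rw [hc]; positivity
  have hcc1 : c ≤ c1 := by rw [hc]; exact (min_le_left _ _).trans (min_le_left _ _)
  have hcc0 : c ≤ c0 := by rw [hc]; exact (min_le_left _ _).trans (min_le_right _ _)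
  have hcK : c * K ≤ 1 := by
    have h1 : c ≤ 1 / K := by rw [hc]; exact min_le_right _ _
    rwa [le_div_iff₀ hKr] at h1
  refine ⟨K, c, hcpos, ?_⟩
  intro q a hqsf haq
  have hq0 : 0 < q := Nat.pos_of_ne_zero hqsf.ne_zero
  obtain ⟨X1, hX1⟩ := hmain q a hqsf haq
  obtain ⟨Y0, hY0⟩ := Filter.eventually_atTop.1 (Pool.Agent.W126.PrimeShort.exists_prime_short q hq0 a haq)
  have htend : Tendsto (fun X : ℝ => c0 * ff X) atTop atTop := ff_tendsto.const_mul_atTop hc0
  rw [← Filter.eventually_atTop]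
  filter_upwards [eventually_ge_atTop X1, ev_grow c0 (4 * B ^ (L + 1)) hc0 (by positivity),
    htend.eventually_ge_atTop Y0, htend.eventually_gt_atTop 0, ff_small (2 * c0) (by positivity),
    eventually_ge_atTop (3 : ℝ), ff_tendsto.eventually_gt_atTop 0] with X hXX1 hgr hY hF0 hsm hX3 hff0
  intro H hH hHm
  obtain ⟨hlX, hgr⟩ := hgr
  have hH0 : ∀ j < L, 0 < H j := fun j hj => by linarith [(hH j hj).1]
  set U : ℝ := H 0 / B ^ (L + 1) with hU
  have hH00 : 0 < H 0 := hH0 0 (by omega)
  have hU0 : 0 < U := by positivity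
  set F := c0 * ff X with hF
  have hS := SS_prop (A := A) (B := B) hL hA (by linarith) hH0 hHm
  -- bounds of the positions
  have hS0K : 2 * K * U ≤ SS B L H 0 := by
    have e1 : SS B L H 0 = B * U := by
      unfold SS
      rw [hU, pow_succ]; simp only [Nat.zero_min, pow_zero, mul_one]
      field_simp
    rw [e1]; exact mul_le_mul_of_nonneg_right (by linarith) hU0.le
  have hSL : SS B L H L = H (L - 1) := by
    unfold SS
    have e1 : min L (L - 1) = L - 1 := by omega
    rw [e1]; field_simp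
  have hb : ∀ i : Fin K, 0 ≤ bj A L (SS B L H) U L (i : ℕ) ∧ bj A L (SS B L H) U L (i : ℕ) ≤ H (L - 1) / 2 := by
    intro i
    have := bj_bound (L := L) hA hU0 hS0K hS i.2.le L
    rwa [hSL] at this
  have hHL : H (L - 1) ≤ F := by
    have h1 := (hH (L - 1) (by omega)).2
    have h2 : c * ff X ≤ c0 * ff X := mul_le_mul_of_nonneg_right hcc0 hff0.le
    linarith
  have hHmono : H 0 ≤ H (L - 1) := by
    have h1 : ∀ j, j < L → H 0 ≤ H j := by
      intro j
      induction j with
      | zero => intro _; exact le_rfl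
      | succ j ih => intro hj; exact (ih (by omega)).trans (hHm j hj)
    exact h1 (L - 1) (by omega)
  have hUH : U ≤ H 0 := div_le_self hH00.le (one_le_pow₀ hB1)
  have hex : ∀ i : Fin K, ∃ p : ℕ, p.Prime ∧ p ≡ a [MOD q] ∧ F + bj A L (SS B L H) U L (i : ℕ) ≤ p ∧
      (p : ℝ) ≤ F + bj A L (SS B L H) U L (i : ℕ) + U / 4 := by
    intro i
    obtain ⟨b1, b2⟩ := hb i
    obtain ⟨p, hp, hpa, hp1, hp2⟩ := hY0 (F + bj A L (SS B L H) U L (i : ℕ)) (by linarith)
    refine ⟨p, hp, hpa, hp1.le, hp2.trans ?_⟩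
    have h1 := hgr (F + bj A L (SS B L H) U L (i : ℕ)) (by linarith) (by linarith)
    have h2 : Real.log X / (4 * B ^ (L + 1)) ≤ U / 4 := by
      rw [hU, div_div, mul_comm (B ^ (L + 1)) 4]
      exact div_le_div_of_nonneg_right (hH 0 (by omega)).1 (by positivity)
    linarith
  choose t htp hta ht1 ht2 using hex
  have htinj : Function.Injective t := by
    intro u v huv
    by_contra hne
    -- use gaps_of on a perturbed pair
    have hlow : ∀ u v : Fin K, u ≠ v → t u = t v → False := by
      intro u v hne huv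
      have g1 := ht1 u
      have g2 := ht2 u
      have g3 := ht1 v
      have g4 := ht2 v
      have e1 : (t u : ℝ) = t v := by rw [huv]
      rcases level (L := L) hA (u : ℕ) (v : ℕ) with h0 | ⟨j, hj, h1, h2⟩
      · have hd := bj_same (S := SS B L H) (U := U) h0 (Nat.zero_le L)
        rw [bj_zero, bj_zero] at hd
        have hne' : (u : ℕ) ≠ (v : ℕ) := fun h => hne (Fin.ext h)
        rcases lt_or_gt_of_ne hne' with h5 | h5
        · have h6 : ((u : ℕ) : ℝ) + 1 ≤ ((v : ℕ) : ℝ) := by exact_mod_cast h5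
          have h7 := mul_le_mul_of_nonneg_right h6 hU0.le
          linarith
        · have h6 : ((v : ℕ) : ℝ) + 1 ≤ ((u : ℕ) : ℝ) := by exact_mod_cast h5
          have h7 := mul_le_mul_of_nonneg_right h6 hU0.le
          linarith
      · have hKU : U ≤ SS B L H j / 4 := by
          have hSinc : ∀ l, SS B L H 0 ≤ SS B L H l := by
            intro l
            induction l with
            | zero => exact le_rfl
            | succ l ih =>
              have h1 := hS l
              have h2 : 1 * SS B L H l ≤ 2 * A * SS B L H l := mul_le_mul_of_nonneg_right (by linarith) h1.1.le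
              linarith [h1.2]
          have e1 : SS B L H 0 = B * U := by
            unfold SS
            rw [hU, pow_succ]; simp only [Nat.zero_min, pow_zero, mul_one]
            field_simp
          have h3 := hSinc j
          rw [e1] at h3
          have h4 : 4 * U ≤ B * U := mul_le_mul_of_nonneg_right hB4 hU0.le
          linarith
        rcases lt_or_gt_of_ne h2 with h3 | h3
        · have := (bj_diff (K := K) hA hU0 hS0K hS u.2.le v.2.le hj h1 h3).1
          linarith
        · have := (bj_diff (K := K) hA hU0 hS0K hS v.2.le u.2.le hj h1.symm h3).1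
          linarith
    exact hlow u v hne huv
  obtain ⟨S, hScard, hSn⟩ := hX1 X hXX1 t htinj (fun i => ⟨htp i, hta i, by linarith [ht1 i, (hb i).1], by
    have g1 := ht2 i
    have g2 := (hb i).2
    linarith⟩)
  have htF : ∀ i, F ≤ t i ∧ (t i : ℝ) ≤ 2 * F := fun i => ⟨by linarith [ht1 i, (hb i).1], by
    have g1 := ht2 i
    have g2 := (hb i).2
    linarith⟩
  -- the number of primes of a window
  have hcardpos : ∀ n ∈ S, ∃ r : ℕ, ((univ : Finset (Fin K)).filter (fun j => (n + t j).Prime)).card = r + 1 ∧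
      r ≤ K := by
    intro n hn
    have h1 := (hSn n hn).2.2.2.1
    have h2 : 0 < (((univ : Finset (Fin K)).filter (fun j => (n + t j).Prime)).image (cmod K (A ^ L) hM)).card := by
      have h3 : (0 : ℝ) < η * (A ^ L : ℕ) := by
        have : (0 : ℝ) < (A ^ L : ℕ) := by exact_mod_cast hM
        positivity
      have h4 := h3.trans_le h1
      exact_mod_cast h4
    have h3 := h2.trans_le Finset.card_image_le
    have h4 : ((univ : Finset (Fin K)).filter (fun j => (n + t j).Prime)).card ≤ K := by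
      refine (Finset.card_filter_le _ _).trans ?_
      rw [Finset.card_univ, Fintype.card_fin]
    exact ⟨((univ : Finset (Fin K)).filter (fun j => (n + t j).Prime)).card - 1, by omega, by omega⟩
  have hkey : ∀ n ∈ S, ∃ t0 ∈ (univ.image t), Nat.nth Nat.Prime (Nat.count Nat.Prime n) = n + t0 := by
    intro n hn
    obtain ⟨r, hr, -⟩ := hcardpos n hn
    obtain ⟨e, he1, -⟩ := enum n t htinj (3 * F) (by linarith) (fun j => by linarith [(htF j).2])
      (hSn n hn).2.2.2.2 r hr
    refine ⟨t (e 0), mem_image_of_mem _ (mem_univ _), ?_⟩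
    have := he1 0 (Nat.zero_le _)
    rwa [add_zero] at this
  refine ⟨S.image (fun n => Nat.count Nat.Prime n), ?_, ?_⟩
  · have h1 : S.card ≤ K * (S.image (fun n => Nat.count Nat.Prime n)).card := by
      apply Finset.card_le_mul_card_image
      intro j hj
      have h2 : (S.filter (fun n => Nat.count Nat.Prime n = j)) ⊆
          (univ.image t).image (fun t0 => Nat.nth Nat.Prime j - t0) := by
        intro n hn
        rw [mem_filter] at hn
        obtain ⟨t0, ht0, he⟩ := hkey n hn.1
        rw [mem_image]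
        refine ⟨t0, ht0, ?_⟩
        rw [hn.2] at he
        omega
      refine (Finset.card_le_card h2).trans ?_
      refine Finset.card_image_le.trans ?_
      refine Finset.card_image_le.trans ?_
      rw [Finset.card_univ, Fintype.card_fin]
    have h2 : (S.card : ℝ) ≤ K * (S.image (fun n => Nat.count Nat.Prime n)).card := by exact_mod_cast h1
    have h3 : c * X ^ (9 / 10 : ℝ) ≤ c * (K * (S.image (fun n => Nat.count Nat.Prime n)).card) :=
      mul_le_mul_of_nonneg_left (hScard.le.trans h2) hcpos.le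
    have h4 : c * (K * (S.image (fun n => Nat.count Nat.Prime n)).card) =
        c * K * (S.image (fun n => Nat.count Nat.Prime n)).card := by ring
    have h5 : c * K * (S.image (fun n => Nat.count Nat.Prime n)).card ≤
        1 * (S.image (fun n => Nat.count Nat.Prime n)).card := mul_le_mul_of_nonneg_right hcK (Nat.cast_nonneg _)
    linarith
  · intro i hi
    rw [mem_image] at hi
    obtain ⟨n, hn, hni⟩ := hi
    obtain ⟨hn1, hn2, hqn, hdens, hsn⟩ := hSn n hn
    obtain ⟨r, hr, hrK⟩ := hcardpos n hn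
    obtain ⟨e, he1, he2, he3, he4, he5⟩ := enum n t htinj (3 * F) (by linarith) (fun j => by linarith [(htF j).2])
      hsn r hr
    rw [hni] at he1 he4 he5
    have hi1 : 1 ≤ i := by
      rw [← hni]
      have h6 : Nat.count Nat.Prime 3 ≤ Nat.count Nat.Prime n := by
        apply Nat.count_monotone
        have : (3 : ℝ) ≤ n := by linarith
        exact_mod_cast this
      have h7 : Nat.count Nat.Prime 3 = 1 := by decide
      omega
    have hp0 : Nat.nth Nat.Prime i = n + t (e 0) := by
      have := he1 0 (Nat.zero_le _)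
      rwa [add_zero] at this
    have hcF : c * ff X ≤ F := mul_le_mul_of_nonneg_right hcc0 hff0.le
    have hgap : ∀ s < r, (Nat.nth Nat.Prime (i + s + 1) : ℝ) - Nat.nth Nat.Prime (i + s) =
        (t (e (s + 1)) : ℝ) - t (e s) := by
      intro s hs
      rw [add_assoc, he1 (s + 1) (by omega), he1 s (by omega)]
      push_cast; ring
    have hG : ∀ s < r, _ := fun s hs => gaps_of (c := c1) hL hA hBA hBK hB4 hc1 hH0 hHm hU t F ht1 ht2
      (e s) (e (s + 1)) (he2 s hs)
    have hcH : ∀ j < L, c * H j ≤ c1 * H j := fun j hj => mul_le_mul_of_nonneg_right hcc1 (hH0 j hj).le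
    refine ⟨hi1, ?_, r, hrK, ?_, ?_, ?_, ?_, ?_, ?_⟩
    · rw [hp0]; push_cast
      have : (0 : ℝ) ≤ t (e 0) := Nat.cast_nonneg _
      linarith
    · rw [he1 r le_rfl]; push_cast
      have := (htF (e r)).2
      linarith
    · intro s hs
      rw [he1 s hs]
      have h1 : n ≡ 0 [MOD q] := (Nat.modEq_zero_iff_dvd).2 hqn
      have h2 := h1.add (hta (e s))
      rwa [zero_add] at h2
    · rw [hp0]; push_cast
      have h1 : (Nat.nth Nat.Prime (i - 1) : ℝ) < n := by exact_mod_cast he5 (i - 1) (by omega)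
      have := (htF (e 0)).1
      linarith
    · rw [he1 r le_rfl]; push_cast
      have := (htF (e r)).2
      linarith
    · intro s hs
      obtain ⟨-, ⟨j, hj, h1, h2⟩, -⟩ := hG s hs
      refine ⟨j, hj, ?_, ?_⟩
      · rw [hgap s hs]; exact (hcH j hj).trans h1
      · rw [hgap s hs]; exact h2
    · intro j hj
      have hmj := many_jumps (m := m) (L := L) hA (fun s => (e s : ℕ)) r
        (fun l s hs => (hG s hs).1 l) (by
          have e1 : ((((univ : Finset (Fin K)).filter (fun j => (n + t j).Prime)).image (cmod K (A ^ L) hM)).image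
              (fun d : Fin (A ^ L) => (d : ℕ))) = (range (r + 1)).image (fun s => cj A L 0 ((fun s => (e s : ℕ)) s)) := by
            rw [← he3, image_image, image_image]
            apply image_congr
            intro s _
            simp [cj, cmod]
          rw [← e1, card_image_of_injective _ Fin.val_injective]
          have h1 : (((m + 1) * A ^ (L - 1) : ℕ) : ℝ) ≤ η * (A ^ L : ℕ) := by
            have e2 : A ^ L = A * A ^ (L - 1) := by
              rw [← pow_succ']; congr 1; omega
            rw [e2]; push_cast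
            have : ((m : ℝ) + 1) * (A : ℝ) ^ (L - 1) ≤ η * A * (A : ℝ) ^ (L - 1) :=
              mul_le_mul_of_nonneg_right hA2 (by positivity)
            linarith
          have h2 := h1.trans hdens
          exact_mod_cast h2) j hj
      refine hmj.trans ?_
      rw [← Set.ncard_coe_finset]
      apply Set.ncard_le_ncard
      · intro s hs
        simp only [coe_filter, mem_range, Set.mem_ofPred_eq] at hs
        obtain ⟨hsr, h1, h2⟩ := hs
        obtain ⟨h3, h4⟩ := (hG s hsr).2.2 j hj h1 h2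
        refine ⟨hsr, ?_, ?_⟩
        · rw [hgap s hsr]; exact (hcH j hj).trans h3
        · rw [hgap s hsr]; exact h4
      · exact (Set.finite_lt_nat r).subset (fun s hs => hs.1)

end Pool.Agent.TH662.PM
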