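import Mathlib

set_option autoImplicit false

/-! PM: positions with digits. -/

open Finset

namespace Pool.Agent.TH662.PM

/-- the prefix numbers of the colour `i mod A^L` -/
def cj (A L j i : ℕ) : ℕ := (i % A ^ L) / A ^ j

/-- the digits -/
def dg (A L j i : ℕ) : ℕ := cj A L j i % A

theorem cj_succ (A L j i : ℕ) : cj A L (j + 1) i = cj A L j i / A := by
  unfold cj
  rw [pow_succ, Nat.div_div_eq_div_mul]

theorem cj_eq (A L j i : ℕ) : cj A L j i = A * cj A L (j + 1) i + dg A L j i := by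
  rw [cj_succ, dg, Nat.div_add_mod]

theorem cj_lt (A L j i : ℕ) (hA : 0 < A) (hj : j ≤ L) : cj A L j i < A ^ (L - j) := by
  unfold cj
  rw [Nat.div_lt_iff_lt_mul (pow_pos hA j), ← pow_add, Nat.sub_add_cancel hj]
  exact Nat.mod_lt _ (pow_pos hA L)

theorem cj_top (A L i : ℕ) (hA : 0 < A) : cj A L L i = 0 := by
  have := cj_lt A L L i hA le_rfl
  rw [Nat.sub_self, pow_zero] at this
  omega

theorem dg_lt (A L j i : ℕ) (hA : 0 < A) : dg A L j i < A := Nat.mod_lt _ hA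

theorem cj_mono_le {A L j u v : ℕ} (h : cj A L j u ≤ cj A L j v) {l : ℕ} (hl : j ≤ l) :
    cj A L l u ≤ cj A L l v := by
  induction l, hl using Nat.le_induction with
  | base => exact h
  | succ l _ ih => rw [cj_succ, cj_succ]; exact Nat.div_le_div_right ih

theorem cj_eq_of_le {A L j u v : ℕ} (h : cj A L j u = cj A L j v) {l : ℕ} (hl : j ≤ l) :
    cj A L l u = cj A L l v :=
  le_antisymm (cj_mono_le h.le hl) (cj_mono_le h.ge hl)

/-- partial positions -/
noncomputable def bj (A L : ℕ) (S : ℕ → ℝ) (U : ℝ) (j i : ℕ) : ℝ :=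
  ∑ l ∈ range j, (dg A L l i : ℝ) * S l + i * U

theorem bj_zero (A L : ℕ) (S : ℕ → ℝ) (U : ℝ) (i : ℕ) : bj A L S U 0 i = i * U := by
  simp [bj]

theorem bj_succ (A L : ℕ) (S : ℕ → ℝ) (U : ℝ) (j i : ℕ) :
    bj A L S U (j + 1) i = bj A L S U j i + (dg A L j i : ℝ) * S j := by
  simp only [bj, sum_range_succ]; ring

theorem bj_bound {A L K : ℕ} {S : ℕ → ℝ} {U : ℝ} (hA : 0 < A) (hU : 0 < U) (hS0 : 2 * K * U ≤ S 0)
    (hS : ∀ l, 0 < S l ∧ 2 * A * S l ≤ S (l + 1)) {i : ℕ} (hi : i ≤ K) (j : ℕ) :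
    0 ≤ bj A L S U j i ∧ bj A L S U j i ≤ S j / 2 := by
  induction j with
  | zero =>
    rw [bj_zero]
    have h1 : (i : ℝ) ≤ K := by exact_mod_cast hi
    have h2 : (i : ℝ) * U ≤ K * U := mul_le_mul_of_nonneg_right h1 hU.le
    constructor
    · positivity
    · linarith
  | succ j ih =>
    rw [bj_succ]
    have h1 : ((dg A L j i : ℕ) : ℝ) + 1 ≤ A := by exact_mod_cast dg_lt A L j i hA
    have h2 := (hS j).1
    have h3 := (hS j).2
    have h4 : (((dg A L j i : ℕ) : ℝ) + 1) * S j ≤ A * S j := mul_le_mul_of_nonneg_right h1 h2.le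
    have h5 : (0 : ℝ) ≤ (dg A L j i : ℝ) * S j := by positivity
    constructor
    · linarith [ih.1]
    · linarith [ih.2]

theorem bj_same {A L : ℕ} {S : ℕ → ℝ} {U : ℝ} {j u v : ℕ} (h : cj A L j u = cj A L j v) {l : ℕ} (hl : j ≤ l) :
    bj A L S U l v - bj A L S U l u = bj A L S U j v - bj A L S U j u := by
  induction l, hl using Nat.le_induction with
  | base => rfl
  | succ l hl ih =>
    rw [bj_succ, bj_succ]
    have h1 : dg A L l u = dg A L l v := by unfold dg; rw [cj_eq_of_le h hl]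
    rw [h1]
    linarith

/-- differences at level `j` -/
theorem bj_diff {A L K : ℕ} {S : ℕ → ℝ} {U : ℝ} (hA : 0 < A) (hU : 0 < U) (hS0 : 2 * K * U ≤ S 0)
    (hS : ∀ l, 0 < S l ∧ 2 * A * S l ≤ S (l + 1)) {u v : ℕ} (hu : u ≤ K) (hv : v ≤ K) {j : ℕ} (hj : j < L)
    (h1 : cj A L (j + 1) u = cj A L (j + 1) v) (h2 : cj A L j u < cj A L j v) :
    S j / 2 ≤ bj A L S U L v - bj A L S U L u ∧ bj A L S U L v - bj A L S U L u ≤ A * S j := by
  rw [bj_same h1 (by omega : j + 1 ≤ L), bj_succ, bj_succ]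
  have b1 := bj_bound (L := L) hA hU hS0 hS hu j
  have b2 := bj_bound (L := L) hA hU hS0 hS hv j
  have e1 := cj_eq A L j u
  have e2 := cj_eq A L j v
  rw [h1] at e1
  have d1 : dg A L j u + 1 ≤ dg A L j v := by omega
  have d2 := dg_lt A L j v hA
  have d3 : ((dg A L j u : ℕ) : ℝ) + 1 ≤ (dg A L j v : ℕ) := by exact_mod_cast d1
  have d4 : ((dg A L j v : ℕ) : ℝ) + 1 ≤ A := by exact_mod_cast d2
  have hSj := (hS j).1
  have m1 : (((dg A L j u : ℕ) : ℝ) + 1) * S j ≤ (dg A L j v : ℕ) * S j := mul_le_mul_of_nonneg_right d3 hSj.le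
  have m2 : (((dg A L j v : ℕ) : ℝ) + 1) * S j ≤ A * S j := mul_le_mul_of_nonneg_right d4 hSj.le
  have m3 : (0 : ℝ) ≤ (dg A L j u : ℝ) * S j := by positivity
  constructor
  · linarith [b1.1, b1.2, b2.1, b2.2]
  · linarith [b1.1, b1.2, b2.1, b2.2]

/-- the level of a pair -/
theorem level {A L : ℕ} (hA : 0 < A) (u v : ℕ) :
    cj A L 0 u = cj A L 0 v ∨ ∃ j < L, cj A L (j + 1) u = cj A L (j + 1) v ∧ cj A L j u ≠ cj A L j v := by
  classical
  have hex : ∃ j, cj A L j u = cj A L j v := ⟨L, by rw [cj_top A L u hA, cj_top A L v hA]⟩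
  set j := Nat.find hex with hj
  have hjs : cj A L j u = cj A L j v := Nat.find_spec hex
  have hjL : j ≤ L := Nat.find_min' hex (by rw [cj_top A L u hA, cj_top A L v hA])
  rcases Nat.eq_zero_or_pos j with h0 | h0
  · left; rw [h0] at hjs; exact hjs
  · right
    obtain ⟨i, hi⟩ : ∃ i, j = i + 1 := ⟨j - 1, by omega⟩
    refine ⟨i, by omega, by rw [← hi]; exact hjs, ?_⟩
    exact Nat.find_min hex (by omega)

/-- the order of the positions refines the order of the prefixes -/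
theorem bj_mono {A L K : ℕ} {S : ℕ → ℝ} {U : ℝ} (hA : 0 < A) (hU : 0 < U) (hS0 : 2 * K * U ≤ S 0)
    (hS : ∀ l, 0 < S l ∧ 2 * A * S l ≤ S (l + 1)) {u v : ℕ} (hu : u ≤ K) (hv : v ≤ K) {j : ℕ}
    (h : cj A L j u < cj A L j v) : ∃ l < L, j ≤ l ∧ cj A L (l + 1) u = cj A L (l + 1) v ∧ cj A L l u < cj A L l v ∧
      S l / 2 ≤ bj A L S U L v - bj A L S U L u := by
  have hne : cj A L 0 u ≠ cj A L 0 v := fun h0 => by
    have := cj_eq_of_le h0 (Nat.zero_le j)
    omega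
  rcases level hA u v with h0 | ⟨l, hl, h1, h2⟩
  · exact absurd h0 hne
  · have hjl : j ≤ l := by
      by_contra hlt
      push Not at hlt
      have := cj_eq_of_le h1 (by omega : l + 1 ≤ j)
      omega
    have h3 : cj A L l u < cj A L l v := lt_of_le_of_ne (cj_mono_le h.le hjl) h2
    exact ⟨l, hl, hjl, h1, h3, (bj_diff hA hU hS0 hS hu hv hl h1 h3).1⟩

end Pool.Agent.TH662.PM
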