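import Pool.Agent.TH662.PM.Pos

set_option autoImplicit false

/-! PM: counting the jumps of monotone sequences. -/

open Finset

namespace Pool.Agent.TH662.PM

theorem mono_le {x : ℕ → ℕ} {r : ℕ} (h : ∀ s < r, x s ≤ x (s + 1)) {s t : ℕ} (hst : s ≤ t) (ht : t ≤ r) :
    x s ≤ x t := by
  induction t, hst using Nat.le_induction with
  | base => exact le_rfl
  | succ t _ ih => exact (ih (by omega)).trans (h t (by omega))

theorem card_image_mono (x : ℕ → ℕ) (r : ℕ) (h : ∀ s < r, x s ≤ x (s + 1)) :
    ((range (r + 1)).image x).card = 1 + ((range r).filter (fun s => x s < x (s + 1))).card := by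
  classical
  induction r with
  | zero => simp
  | succ r ih =>
    have ih' := ih (fun s hs => h s (by omega))
    rw [range_add_one (n := r + 1), image_insert]
    have h1 : (range (r + 1)).filter (fun s => x s < x (s + 1)) =
        if x r < x (r + 1) then insert r ((range r).filter (fun s => x s < x (s + 1)))
        else (range r).filter (fun s => x s < x (s + 1)) := by
      rw [range_add_one, filter_insert]
    by_cases hx : x r < x (r + 1)
    · rw [h1, if_pos hx, card_insert_of_notMem, card_insert_of_notMem, ih']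
      · ring
      · simp
      · intro hmem
        rw [mem_image] at hmem
        obtain ⟨s, hs, hsx⟩ := hmem
        rw [mem_range] at hs
        have := mono_le h (by omega : s ≤ r) (by omega)
        omega
    · rw [h1, if_neg hx, insert_eq_of_mem, ih']
      rw [mem_image]
      refine ⟨r, by rw [mem_range]; omega, ?_⟩
      have := h r (by omega)
      omega

/-- the number of jumps at the level `j` -/
theorem jumps {A L : ℕ} (e : ℕ → ℕ) (r : ℕ) (h : ∀ j, ∀ s < r, cj A L j (e s) ≤ cj A L j (e (s + 1))) (j : ℕ) :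
    ((range (r + 1)).image (fun s => cj A L j (e s))).card =
      ((range (r + 1)).image (fun s => cj A L (j + 1) (e s))).card +
      ((range r).filter (fun s => cj A L (j + 1) (e s) = cj A L (j + 1) (e (s + 1)) ∧
        cj A L j (e s) < cj A L j (e (s + 1)))).card := by
  classical
  rw [card_image_mono (fun s => cj A L j (e s)) r (h j), card_image_mono (fun s => cj A L (j + 1) (e s)) r (h (j + 1)),
    add_assoc, Nat.add_left_cancel_iff]
  rw [← card_union_of_disjoint]
  · congr 1
    ext s
    simp only [mem_union, mem_filter, mem_range]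
    constructor
    · rintro ⟨hs, h1⟩
      rcases (h (j + 1) s hs).lt_or_eq with h2 | h2
      · exact Or.inl ⟨hs, h2⟩
      · exact Or.inr ⟨hs, h2, h1⟩
    · rintro (⟨hs, h1⟩ | ⟨hs, -, h1⟩)
      · refine ⟨hs, ?_⟩
        by_contra hcon
        push Not at hcon
        have := cj_mono_le hcon (by omega : j ≤ j + 1)
        omega
      · exact ⟨hs, h1⟩
  · rw [Finset.disjoint_left]
    intro s hs hs'
    rw [mem_filter] at hs hs'
    omega

/-- a dense set of colours has many prefixes -/
theorem card_prefix {A L : ℕ} (hA : 0 < A) (J : Finset ℕ) (j : ℕ) :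
    (J.image (fun i => cj A L 0 i)).card ≤ A ^ j * (J.image (fun i => cj A L j i)).card := by
  classical
  have h1 : J.image (fun i => cj A L j i) = (J.image (fun i => cj A L 0 i)).image (fun d => d / A ^ j) := by
    rw [image_image]
    apply image_congr
    intro i _
    simp [cj]
  rw [h1]
  apply Finset.card_le_mul_card_image
  intro y _
  have h2 : (J.image (fun i => cj A L 0 i)).filter (fun x => x / A ^ j = y) ⊆ Ico (y * A ^ j) (y * A ^ j + A ^ j) := by
    intro x hx
    rw [mem_filter] at hx
    rw [mem_Ico]
    have hp : 0 < A ^ j := pow_pos hA j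
    have h3 := Nat.div_add_mod x (A ^ j)
    have h4 := Nat.mod_lt x hp
    have h5 : x / A ^ j = y := hx.2
    have h6 : A ^ j * (x / A ^ j) = y * A ^ j := by rw [h5]; ring
    rw [h6] at h3
    constructor
    · exact (Nat.le_add_right _ _).trans h3.le
    · calc x = y * A ^ j + x % A ^ j := h3.symm
        _ < y * A ^ j + A ^ j := Nat.add_lt_add_left h4 _
  refine (card_le_card h2).trans ?_
  rw [Nat.card_Ico]
  omega

theorem card_prefix_le {A L : ℕ} (hA : 0 < A) (J : Finset ℕ) (j : ℕ) (hj : j ≤ L) :
    (J.image (fun i => cj A L j i)).card ≤ A ^ (L - j) := by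
  classical
  have h1 : J.image (fun i => cj A L j i) ⊆ range (A ^ (L - j)) := by
    intro x hx
    rw [mem_image] at hx
    obtain ⟨i, -, rfl⟩ := hx
    rw [mem_range]
    exact cj_lt A L j i hA hj
  exact (card_le_card h1).trans (card_range _).le

/-- many jumps at every level -/
theorem many_jumps {A L m : ℕ} (hA : 0 < A) (e : ℕ → ℕ) (r : ℕ)
    (h : ∀ j, ∀ s < r, cj A L j (e s) ≤ cj A L j (e (s + 1)))
    (hd : (m + 1) * A ^ (L - 1) ≤ ((range (r + 1)).image (fun s => cj A L 0 (e s))).card) (j : ℕ) (hj : j < L) :
    m ≤ ((range r).filter (fun s => cj A L (j + 1) (e s) = cj A L (j + 1) (e (s + 1)) ∧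
        cj A L j (e s) < cj A L j (e (s + 1)))).card := by
  classical
  have h1 := jumps e r h j
  have e1 : ∀ l, (range (r + 1)).image (fun s => cj A L l (e s)) = ((range (r + 1)).image e).image (fun i => cj A L l i) := by
    intro l; rw [image_image]; rfl
  rw [e1] at hd
  rw [e1, e1] at h1
  have h2 := card_prefix (L := L) hA ((range (r + 1)).image e) j
  have h3 := card_prefix_le hA ((range (r + 1)).image e) (j + 1) (by omega : j + 1 ≤ L)
  set Nj := (((range (r + 1)).image e).image (fun i => cj A L j i)).card
  set Nj1 := (((range (r + 1)).image e).image (fun i => cj A L (j + 1) i)).card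
  set N0 := (((range (r + 1)).image e).image (fun i => cj A L 0 i)).card
  set Q := ((range r).filter (fun s => cj A L (j + 1) (e s) = cj A L (j + 1) (e (s + 1)) ∧
        cj A L j (e s) < cj A L j (e (s + 1)))).card
  have hp : 0 < A ^ j := pow_pos hA j
  have h4 : A ^ (L - 1) = A ^ j * A ^ (L - (j + 1)) := by
    rw [← pow_add]; congr 1; omega
  have hq : 1 ≤ A ^ (L - (j + 1)) := Nat.one_le_pow _ _ hA
  have h5 : A ^ j * ((m + 1) * A ^ (L - (j + 1))) ≤ A ^ j * Nj := by
    calc A ^ j * ((m + 1) * A ^ (L - (j + 1))) = (m + 1) * A ^ (L - 1) := by rw [h4]; ring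
      _ ≤ N0 := hd
      _ ≤ A ^ j * Nj := h2
  have h6 := Nat.le_of_mul_le_mul_left h5 hp
  have h7 : (m + 1) * A ^ (L - (j + 1)) = m * A ^ (L - (j + 1)) + A ^ (L - (j + 1)) := by ring
  have h8 : m * 1 ≤ m * A ^ (L - (j + 1)) := Nat.mul_le_mul_left m hq
  omega

end Pool.Agent.TH662.PM
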