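import Pool.Agent.H362R2.RQ.Place
import Pool.Agent.TH662.CP.Idx

set_option autoImplicit false

/-! PM: windows with given positions; enumeration of their primes. -/

open Finset Filter Topology

namespace Pool.Agent.TH662.PM

open Pool.Agent.H362R2.RQ
open Pool.Agent.H378R2 (yy)
open Pool.Agent.H256R2.SC (ff)
open Pool.Agent.H312R2.RG.C3 (ff_tendsto ff_lower ff_upper ff_small ff_slow count_next)

theorem window (h : StRQ) : ∃ η : ℝ, 0 < η ∧ ∀ (M : ℕ) (hM : 0 < M), ∃ K : ℕ, M ≤ K ∧ ∃ c : ℝ, 0 < c ∧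
    ∀ q a : ℕ, Squarefree q → a.Coprime q → ∃ X0 : ℝ, ∀ X : ℝ, X0 ≤ X →
    ∀ t : Fin K → ℕ, Function.Injective t →
    (∀ j, (t j).Prime ∧ t j ≡ a [MOD q] ∧ c * ff X ≤ t j ∧ (t j : ℝ) ≤ 2 * (c * ff X)) →
    ∃ S : Finset ℕ, X ^ (9 / 10 : ℝ) < S.card ∧ ∀ n ∈ S, X < n ∧ (n : ℝ) ≤ 3 * X ∧ q ∣ n ∧
      η * M ≤ (((univ : Finset (Fin K)).filter (fun j => (n + t j).Prime)).image (cmod K M hM)).card ∧
      ∀ s : ℕ, (s : ℝ) ≤ 3 * (c * ff X) → (n + s).Prime → ∃ j, s = t j := by
  classical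
  obtain ⟨η, hη, hmain⟩ := h
  refine ⟨η, hη, ?_⟩
  intro M hM
  obtain ⟨K, hMK, c0, hc0, hX⟩ := hmain M hM
  have hK0 : 0 < K := by omega
  obtain ⟨c, hc⟩ : ∃ c : ℝ, c = c0 / 3 := ⟨_, rfl⟩
  have hcpos : 0 < c := by rw [hc]; positivity
  have hcc : 3 * c = c0 := by rw [hc]; ring
  refine ⟨K, hMK, c, hcpos, ?_⟩
  intro q a hqsf haq
  have hq0 : 0 < q := Nat.pos_of_ne_zero hqsf.ne_zero
  obtain ⟨X1, hX1⟩ := hX q
  have hllt : Tendsto (fun X : ℝ => Real.log (Real.log X)) atTop atTop :=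
    Real.tendsto_log_atTop.comp Real.tendsto_log_atTop
  rw [← Filter.eventually_atTop]
  filter_upwards [eventually_ge_atTop X1, ff_lower, hllt.eventually_ge_atTop (1 / c),
    Real.tendsto_log_atTop.eventually_ge_atTop 1, eventually_gt_atTop (0 : ℝ), ff_tendsto.eventually_gt_atTop 0]
    with X hXX1 hfl hll hl1 hXpos hffpos
  intro t htinj ht
  set H := c * ff X with hH
  have hHpos : 0 < H := by positivity
  have hyy : (yy X : ℝ) < H := by
    have h1 : (yy X : ℝ) ≤ Real.log X / 1000 := Nat.floor_le (by positivity)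
    have h2 : Real.log X ≤ H := by
      rw [div_le_iff₀ hcpos] at hll
      calc Real.log X = Real.log X * 1 := (mul_one _).symm
        _ ≤ Real.log X * (Real.log (Real.log X) * c) := mul_le_mul_of_nonneg_left hll (by linarith)
        _ = c * (Real.log X * Real.log (Real.log X)) := by ring
        _ ≤ c * ff X := mul_le_mul_of_nonneg_left hfl hcpos.le
    linarith
  have h3H : c0 * ff X = 3 * H := by rw [hH, ← hcc]; ring
  set P : ℕ → Prop := fun n => X < n ∧ q ∣ n ∧
      η * M ≤ (((univ : Finset (Fin K)).filter (fun j => (n + t j).Prime)).image (cmod K M hM)).card ∧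
      ∀ s : ℕ, (s : ℝ) ≤ 3 * H → (n + s).Prime → ∃ j, s = t j with hP
  refine ⟨(Finset.Icc 1 ⌊3 * X⌋₊).filter P, ?_, ?_⟩
  · by_contra hcon
    push Not at hcon
    obtain ⟨n, hn1, hn2, hn3, ⟨D, hD1, hD2⟩, hn4, hn5⟩ := hX1 X hXX1 t htinj (fun j => ⟨(ht j).1, by
        have := (ht j).2.2.1
        have h2 : (yy X : ℝ) < t j := by linarith
        exact_mod_cast h2, by
        have := (ht j).2.2.2
        rw [h3H]; linarith⟩) (cmod K M hM) (fib_cmod K M hM hMK) ((Finset.Icc 1 ⌊3 * X⌋₊).filter P) hcon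
    apply hn3
    rw [mem_filter, mem_Icc]
    have hn0 : 1 ≤ n := by
      have h1 : (0 : ℝ) < n := by linarith
      exact_mod_cast h1
    refine ⟨⟨hn0, Nat.le_floor hn2⟩, hn1, ?_, ?_, ?_⟩
    · exact dvd_of_primes q n hqsf fun p hp hpq => hn5 p hp (Nat.le_of_dvd hq0 hpq)
    · refine hD1.trans ?_
      have h1 : D.card ≤ ((univ.filter (fun k => (n + t k).Prime)).image (cmod K M hM)).card := by
        apply Finset.card_le_card
        intro d hd
        obtain ⟨j, hj1, hj2⟩ := hD2 d hd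
        rw [mem_image]
        exact ⟨j, by rw [mem_filter]; exact ⟨mem_univ _, hj2⟩, hj1⟩
      exact_mod_cast h1
    · intro s hs hp
      exact hn4 s (by rw [h3H]; exact hs) hp
  · intro n hn
    rw [mem_filter, mem_Icc] at hn
    exact ⟨hn.2.1, (Nat.le_floor_iff (by linarith)).1 hn.1.2, hn.2.2.1, hn.2.2.2.1, hn.2.2.2.2⟩

/-- enumeration of the primes of a window -/
theorem enum {K : ℕ} (n : ℕ) (t : Fin K → ℕ) (ht : Function.Injective t) (B : ℝ) (hB : 0 ≤ B)
    (htB : ∀ j, (t j : ℝ) ≤ B) (hs : ∀ s : ℕ, (s : ℝ) ≤ B → (n + s).Prime → ∃ j, s = t j) (r : ℕ)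
    (hr : ((univ : Finset (Fin K)).filter (fun j => (n + t j).Prime)).card = r + 1) :
    ∃ e : ℕ → Fin K, (∀ s ≤ r, Nat.nth Nat.Prime (Nat.count Nat.Prime n + s) = n + t (e s)) ∧
      (∀ s < r, t (e s) < t (e (s + 1))) ∧
      (range (r + 1)).image e = (univ : Finset (Fin K)).filter (fun j => (n + t j).Prime) ∧
      (n : ℝ) + B < Nat.nth Nat.Prime (Nat.count Nat.Prime n + r + 1) ∧
      ∀ i < Nat.count Nat.Prime n, Nat.nth Nat.Prime i < n := by
  classical
  set W : ℕ := ⌊B⌋₊ + 1 with hW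
  have hwin : (range W).filter (fun s => (n + s).Prime) =
      ((univ : Finset (Fin K)).filter (fun j => (n + t j).Prime)).image t := by
    ext s
    rw [mem_filter, mem_image, mem_range]
    constructor
    · rintro ⟨h1, h2⟩
      obtain ⟨j, rfl⟩ := hs s ((Nat.le_floor_iff hB).1 (by omega)) h2
      exact ⟨j, by rw [mem_filter]; exact ⟨mem_univ _, h2⟩, rfl⟩
    · rintro ⟨j, hj, rfl⟩
      rw [mem_filter] at hj
      refine ⟨?_, hj.2⟩
      rw [hW, Nat.lt_succ_iff]
      exact Nat.le_floor (htB j)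
  have hcard : ((range W).filter (fun s => (n + s).Prime)).card = r + 1 := by
    rw [hwin, card_image_of_injective _ ht, hr]
  obtain ⟨h1, h2, h3⟩ := Pool.Agent.TH662.CP.idx_of n W
  have hj0 : ∃ j0 : Fin K, (n + t j0).Prime := by
    have : ((univ : Finset (Fin K)).filter (fun j => (n + t j).Prime)).Nonempty := by
      rw [← card_pos, hr]; omega
    obtain ⟨j, hj⟩ := this
    exact ⟨j, (mem_filter.1 hj).2⟩
  have h4 : ∀ s : ℕ, ∃ j : Fin K, s ≤ r → (n + t j).Prime ∧
      Nat.nth Nat.Prime (Nat.count Nat.Prime n + s) = n + t j := by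
    intro s
    by_cases hsr : s ≤ r
    · obtain ⟨s', hs1, hs2, hs3⟩ := h1 s (by omega)
      obtain ⟨j, rfl⟩ := hs s' ((Nat.le_floor_iff hB).1 (by omega)) hs2
      exact ⟨j, fun _ => ⟨hs2, hs3⟩⟩
    · exact ⟨hj0.choose, fun h => absurd h hsr⟩
  choose e he using h4
  have hmono : ∀ s s', s < s' → s' ≤ r → t (e s) < t (e s') := by
    intro s s' hss hs'
    have g1 := (he s (by omega)).2
    have g2 := (he s' hs').2
    have g3 : Nat.nth Nat.Prime (Nat.count Nat.Prime n + s) < Nat.nth Nat.Prime (Nat.count Nat.Prime n + s') :=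
      Nat.nth_strictMono Nat.infinite_setOfPred_prime (by omega)
    omega
  refine ⟨e, fun s hs => (he s hs).2, fun s hs => hmono s (s + 1) (by omega) (by omega), ?_, ?_, h3⟩
  · apply Finset.eq_of_subset_of_card_le
    · intro j hj
      rw [mem_image] at hj
      obtain ⟨s, hs1, rfl⟩ := hj
      rw [mem_range] at hs1
      rw [mem_filter]
      exact ⟨mem_univ _, (he s (by omega)).1⟩
    · rw [hr, card_image_of_injOn, card_range]
      intro s hs1 s' hs2 hss
      simp only [coe_range, Set.mem_Iio] at hs1 hs2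
      by_contra hne
      rcases lt_or_gt_of_ne hne with h5 | h5
      · have := hmono s s' h5 (by omega)
        rw [show e s = e s' from hss] at this; omega
      · have := hmono s' s h5 (by omega)
        rw [show e s = e s' from hss] at this; omega
  · have h5 := h2 (r + 1) (by omega)
    have h6 : (n : ℝ) + W ≤ Nat.nth Nat.Prime (Nat.count Nat.Prime n + (r + 1)) := by exact_mod_cast h5
    have h7 : B < W := by
      rw [hW]; push_cast; exact Nat.lt_floor_add_one _
    rw [add_assoc]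
    linarith

end Pool.Agent.TH662.PM
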